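import Pool.Agent.H33.SK4

set_option autoImplicit false

open Topology Pool.Agent.H33

namespace Pool.Agent.Results.MP_d61ec6_gt.DiamondCex

theorem result (h : DiaDefs.Diamond) :
    ¬ (∀ (X : Type) [TopologicalSpace X] [CompactSpace X] [T2Space X],
      (∀ A : Set X, ∃ B : Set (Set (closure A)),
          TopologicalSpace.IsTopologicalBasis B ∧
            Cardinal.mk ↥B ≤ max (Cardinal.mk ↥A) Cardinal.aleph0) →
      (∀ 𝒰 : Set (Set C(X, ℝ)),
          (∀ U ∈ 𝒰,
              IsOpen[TopologicalSpace.induced (fun f : C(X, ℝ) => (⇑f : X → ℝ))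
                (inferInstance : TopologicalSpace (X → ℝ))] U ∧ U.Nonempty) →
          (∀ f : C(X, ℝ), {U | U ∈ 𝒰 ∧ f ∈ U}.Finite) →
          𝒰.Countable) →
      TopologicalSpace.MetrizableSpace X) := by
  intro H
  obtain ⟨X, τ, a, b, -, c, d, e⟩ := SK4.main h
  have := H X (fun A => by
    have : CompactSpace (closure A) := isCompact_iff_compactSpace.1 isClosed_closure.isCompact
    obtain ⟨B, h1, h2⟩ := SK3.weight (closure A)
    exact ⟨B, h1, h2.trans (max_le (c A) (le_max_right _ _))⟩)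
    (SK3.pf _ (fun g hg => ⟨⟨g, hg⟩, rfl⟩) d)
  exact e inferInstance

end Pool.Agent.Results.MP_d61ec6_gt.DiamondCex
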